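import Mathlib
import Pool.Agent.Helper379.MahlerExp

set_option autoImplicit false

namespace Pool.Agent.Results.MP_ccb155_nt.SparseExceptions

/-- Exceptions to Mahler's bound `‖e^x‖ > e^{-cx}` are sparse. For `m ≥ 1`, `c > 0` and
`0 < κ < (mc - 1) / (m (m + 1) (c + 1))`: for all large `n` the window `[n, n + ⌊n^κ⌋]` contains at most `m`
integers `x` with `‖e^x‖ ≤ e^{-cx}`, and there are at most `D X^{1-κ}` of them up to `X`. Hence for every
`c > 0` there are `O(X^{1-δ})` of them up to `X` for some `δ > 0`, and for every `ε > 0` there is a `c` for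
which there are `O(X^{1/2+ε})` of them. -/
theorem result :
    (∀ (m : ℕ) (c κ : ℝ), 1 ≤ m → 0 < c → 0 < κ → κ * (m * (m + 1) * (c + 1)) < m * c - 1 →
      (∃ n₀ : ℕ, ∀ n : ℕ, n₀ ≤ n →
        ((Finset.Icc n (n + ⌊(n : ℝ) ^ κ⌋₊)).filter
          (fun x : ℕ => |Real.exp x - round (Real.exp x)| ≤ Real.exp (-(c * x)))).card ≤ m) ∧
      (∃ D : ℝ, ∀ X : ℕ, 1 ≤ X →
        (((Finset.Icc 1 X).filter
          (fun x : ℕ => |Real.exp x - round (Real.exp x)| ≤ Real.exp (-(c * x)))).card : ℝ)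
          ≤ D * (X : ℝ) ^ (1 - κ))) ∧
    (∀ c : ℝ, 0 < c → ∃ δ : ℝ, 0 < δ ∧ ∃ D : ℝ, ∀ X : ℕ, 1 ≤ X →
        (((Finset.Icc 1 X).filter
          (fun x : ℕ => |Real.exp x - round (Real.exp x)| ≤ Real.exp (-(c * x)))).card : ℝ)
          ≤ D * (X : ℝ) ^ (1 - δ)) ∧
    (∀ ε : ℝ, 0 < ε → ∃ c : ℝ, 0 < c ∧ ∃ D : ℝ, ∀ X : ℕ, 1 ≤ X →
        (((Finset.Icc 1 X).filter
          (fun x : ℕ => |Real.exp x - round (Real.exp x)| ≤ Real.exp (-(c * x)))).card : ℝ)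
          ≤ D * (X : ℝ) ^ (1 / 2 + ε)) :=
  ⟨fun m c κ hm hc hκ0 hκ => ⟨MahlerExp.window m c κ hm hc hκ0 hκ, MahlerExp.count m c κ hm hc hκ0 hκ⟩,
    fun c hc => MahlerExp.count_power c hc, fun ε hε => MahlerExp.count_half ε hε⟩

end Pool.Agent.Results.MP_ccb155_nt.SparseExceptions
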